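import Pool.Agent.V1120.CKLatticeTop

set_option autoImplicit false
open Set Topology

namespace Pool.Agent.Results.MP_2e9bdd_an.MetrisableCompacta

open Pool.Agent.V1120.CKLattice

universe u

/-- (1) `γ*(C(K)) = 1` for every nonempty compact metrisable `K`.
(2) More generally, `γ*(C(K)) = 1` for every nonempty compact Hausdorff `K` having a closed
metrisable subset `Z` without isolated points (possibly empty) such that every point outside `Z`
has a base of clopen neighbourhoods in `K`. -/
theorem result :
    (∀ (K : Type u) [TopologicalSpace K] [CompactSpace K] [TopologicalSpace.MetrizableSpace K]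
      [Nonempty K], gammaStar C(K, ℝ) = 1) ∧
    (∀ (K : Type u) [TopologicalSpace K] [CompactSpace K] [T2Space K] [Nonempty K] (Z : Set K),
      IsClosed Z → TopologicalSpace.MetrizableSpace Z →
      (∀ U : Set Z, IsOpen U → U.Nonempty → U.Infinite) →
      (∀ t ∉ Z, ∀ U : Set K, IsOpen U → t ∈ U → ∃ C : Set K, IsClopen C ∧ t ∈ C ∧ C ⊆ U) →
      gammaStar C(K, ℝ) = 1) := by
  refine ⟨?_, ?_⟩
  · intro K _ _ _ _
    exact gammaStar_metrizable
  · intro K _ _ _ _ Z hZ hm hper hloc
    have : CompactSpace Z := isCompact_iff_compactSpace.mp hZ.isCompact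
    letI := TopologicalSpace.metrizableSpaceMetric Z
    exact gammaStar_eq_one Z hZ hper hloc

end Pool.Agent.Results.MP_2e9bdd_an.MetrisableCompacta
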